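import Mathlib
import Pool.Agent.H.MP_0e1b7e_an.B
import Pool.Agent.H.MP_0e1b7e_an.F

namespace Pool.Agent.Results.MP_0e1b7e_an.Yes

open Complex Metric Finset PowerSeries Filter Topology

/-- The class `B_1(α)`; `L` is the analytic branch of `log (f(z)/z)` vanishing at `0`. -/
def InB1 (α : ℝ) (f : ℂ → ℂ) : Prop :=
  DifferentiableOn ℂ f (ball 0 1) ∧ f 0 = 0 ∧ deriv f 0 = 1 ∧
    ∃ L : ℂ → ℂ, DifferentiableOn ℂ L (ball 0 1) ∧ L 0 = 0 ∧
      (∀ z ∈ ball (0 : ℂ) 1, f z = z * Complex.exp (L z)) ∧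
      ∀ z ∈ ball (0 : ℂ) 1, 0 < (Complex.exp ((α - 1) * L z) * deriv f z).re

/-- The extremal function `g(z) = z (1 + ∑_{n ≥ 1} 2α/(n+α) z^n)^(1/α)`. -/
noncomputable def g (α : ℝ) (z : ℂ) : ℂ :=
  z * (1 + ∑' k : ℕ, 2 * (α : ℂ) / (k + 1 + α) * z ^ (k + 1)) ^ (1 / α : ℂ)

open Pool.Agent.H.MP_7a60ac_an Pool.Agent.H.MP_0e1b7e_an

theorem result (α : ℝ) (h0 : 0 < α) (h1 : α < 1) (f : ℂ → ℂ) (hf : InB1 α f) (n : ℕ) (hn : 2 ≤ n) :
    (iteratedDeriv n (g α) 0 / (n.factorial : ℂ)).im = 0 ∧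
    ‖iteratedDeriv n f 0 / (n.factorial : ℂ)‖ ≤ (iteratedDeriv n (g α) 0 / (n.factorial : ℂ)).re := by
  obtain ⟨hd, f0, f1, L, hL, L0, hfL, hre⟩ := hf
  obtain ⟨m, rfl⟩ := Nat.exists_eq_add_of_le' hn
  have a0 : (α : ℂ) ≠ 0 := by exact_mod_cast h0.ne'
  have hb := ball_mem_nhds (0 : ℂ) one_pos
  have aL := hL.analyticAt hb
  have dL : ∀ z ∈ ball (0 : ℂ) 1, HasDerivAt L (deriv L z) z := fun z hz =>
    (hL.differentiableAt (isOpen_ball.mem_nhds hz)).hasDerivAt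
  obtain ⟨P, hP⟩ : ∃ P : ℂ → ℂ, P = fun z => Complex.exp (α * L z) := ⟨_, rfl⟩
  obtain ⟨Q, hQ⟩ : ∃ Q : ℂ → ℂ, Q = fun z => Complex.exp (L z) := ⟨_, rfl⟩
  obtain ⟨h, hh⟩ : ∃ h : ℂ → ℂ, h = fun z => Complex.exp ((α - 1) * L z) * deriv f z := ⟨_, rfl⟩
  have aP : AnalyticAt ℂ P 0 := by rw [hP]; fun_prop
  have aQ : AnalyticAt ℂ Q 0 := by rw [hQ]; fun_prop
  have dP : ∀ z ∈ ball (0 : ℂ) 1, deriv P z = P z * (α * deriv L z) := fun z hz => by
    rw [hP]; exact ((dL z hz).const_mul _).cexp.deriv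
  have dQ : ∀ z ∈ ball (0 : ℂ) 1, deriv Q z = Q z * deriv L z := fun z hz => by
    rw [hQ]; exact (dL z hz).cexp.deriv
  have dh : DifferentiableOn ℂ h (ball 0 1) := hh ▸ (hL.const_mul _).cexp.mul (hd.deriv isOpen_ball)
  have e1 : ts f = ts Q * X := by
    rw [← ts_id, ← ts_mul aQ (by fun_prop)]
    exact ts_congr (mem_of_superset hb fun z hz => by simp [hQ, hfL z hz, mul_comm])
  have e2 : C (α : ℂ) * ts h = C (α : ℂ) * ts P + d⁄dX ℂ (ts P) * X := by
    rw [← ts_deriv, ← ts_id, ← ts_mul aP.deriv (by fun_prop), ← ts_cmul, ← ts_cmul,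
      ← ts_add (by fun_prop) (by have := aP.deriv; fun_prop)]
    refine ts_congr (mem_of_superset hb fun z hz => ?_)
    have e : f =ᶠ[𝓝 z] fun w => w * Complex.exp (L w) :=
      mem_of_superset (isOpen_ball.mem_nhds hz) hfL
    have d := ((hasDerivAt_id' z).mul (dL z hz).cexp).deriv
    have x : Complex.exp ((α - 1) * L z) * Complex.exp (L z) = Complex.exp (α * L z) := by
      rw [← Complex.exp_add]; congr 1; ring
    show α * h z = α * P z + deriv P z * z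
    rw [dP z hz, hh, hP]
    simp only
    rw [e.deriv_eq, show deriv (fun w => w * Complex.exp (L w)) z = _ from d, ← x]; ring
  have e3 : ts P * d⁄dX ℂ (ts Q) = C (α : ℂ)⁻¹ * d⁄dX ℂ (ts P) * ts Q := by
    rw [← ts_deriv, ← ts_deriv, ← ts_cmul, ← ts_mul aP aQ.deriv,
      ← ts_mul (by have := aP.deriv; fun_prop) aQ]
    refine ts_congr (mem_of_superset hb fun z hz => ?_)
    show P z * deriv Q z = (α : ℂ)⁻¹ * deriv P z * Q z
    rw [dP z hz, dQ z hz]; field_simp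
  have e4 : ∀ k, α * co h k = (k + α) * co P k := fun k => by
    have := congrArg (coeff k) e2
    rcases k with _ | k
    · simpa [ts] using this
    · simp only [ts, map_add, coeff_C_mul, coeff_mk, coeff_succ_mul_X, coeff_derivative] at this
      rw [this]; push_cast; ring
  have P0 : co P 0 = 1 := by simp [co, hP, L0]
  obtain ⟨F, F0, hF, eF⟩ := kaluza h0
  obtain ⟨u, hu⟩ : ∃ u : ℕ → ℝ, u = fun j : ℕ => α / (j + α) := ⟨_, rfl⟩
  have ja : ∀ j : ℕ, (j : ℂ) + α ≠ 0 := fun j => by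
    exact_mod_cast (by positivity : (j : ℝ) + α ≠ 0)
  have hK : ∀ x, KX u x * (1 - FX F x) = 1 + FX F x := fun x => by
    have := congrArg (fun A => rescale x (PowerSeries.map ofRealHom A)) eF
    simp only [map_mul, map_sub, map_one, ← hu] at this
    have e : KX u x = 2 * rescale x (PowerSeries.map ofRealHom (PowerSeries.mk u)) - 1 := by
      ext k
      rw [two_mul, map_sub, map_add, coeff_rescale, coeff_map, coeff_mk]
      rcases k with _ | k
      · simp [KX, hu, a0]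
      · simp [KX, coeff_one]; ring
    rw [e, FX]; linear_combination 2 * this
  have hT : ∀ n, ∃ c ∈ TT n, X ^ (n + 1) ∣ ts P - (1 + aa u c) := fun n => by
    refine ⟨_, TT_mem dh (by simp [hh, L0, f1]) fun z hz => by rw [hh]; exact (hre z hz).le,
      X_pow_dvd_iff.2 ?_⟩
    rintro (_ | k) hk
    · simp [aa, ts, P0]
    · have := ja (k + 1)
      have e := e4 (k + 1)
      simp only [aa, ts, map_sub, map_add, coeff_mk, coeff_one, hu, hk, k.succ_pos, and_self,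
        dif_pos, k.succ_ne_zero, if_false]
      push_cast at this e ⊢
      field_simp
      linear_combination -e
  obtain ⟨N, hN⟩ : ∃ N : ℕ, ⌈α⁻¹ - 1⌉₊ = N + 1 := Nat.exists_eq_succ_of_ne_zero
    (Nat.ceil_pos.2 (sub_pos.2 ((one_lt_inv₀ h0).2 h1))).ne'
  have b1 := (Nat.ceil_eq_iff N.succ_ne_zero).1 hN
  simp only [Nat.succ_sub_one, Nat.cast_succ] at b1
  have := all hF F0 (δ := α⁻¹ - 1 - N) (by linarith [b1.1]) (by linarith [b1.2])
    (fun j => by rw [hu]; positivity) hK hT N (m + 1) (ts Q)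
  rw [show 1 + (α⁻¹ - 1 - N) + N = α⁻¹ by ring] at this
  have b := this ⟨by simp [ts, co, hQ, L0], by simp [e3]⟩
  obtain ⟨K, hKf⟩ : ∃ K : ℂ → ℂ, K = fun z =>
    1 + ∑' k : ℕ, 2 * (α : ℂ) / (k + 1 + α) * z ^ (k + 1) := ⟨_, rfl⟩
  have pK : HasFPowerSeriesAt K (FormalMultilinearSeries.ofScalars ℂ fun k => coeff k (KX u 1)) 0 := by
    rw [hasFPowerSeriesAt_iff]
    filter_upwards [hb] with z hz
    have z1 := mem_ball_zero_iff.1 hz
    have s : Summable fun k : ℕ => 2 * (α : ℂ) / (k + 1 + α) * z ^ (k + 1) := by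
      refine .of_norm_bounded ((summable_geometric_of_lt_one (norm_nonneg z) z1).mul_left
        (2 * ‖z‖)) fun k => ?_
      rw [show 2 * (α : ℂ) / (k + 1 + α) = (2 * α / (k + 1 + α) : ℝ) by push_cast; rfl, norm_mul,
        norm_real, norm_pow, Real.norm_of_nonneg (by positivity), mul_assoc, ← pow_succ']
      refine mul_le_mul_of_nonneg_right ?_ (by positivity)
      rw [div_le_iff₀ (by positivity)]; linarith [k.cast_nonneg (α := ℝ)]
    rw [← hasSum_nat_add_iff' 1]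
    simpa [hKf, KX, hu, mul_div_assoc, mul_comm (z ^ _)] using s.hasSum
  have aK := pK.analyticAt
  have K0 : K 0 = 1 := by simp [hKf]
  have tK : ts K = KX u 1 := by
    ext k
    simpa [ts, co] using congrArg (·.coeff k) (aK.hasFPowerSeriesAt.eq_formalMultilinearSeries pK)
  have aL' : AnalyticAt ℂ (fun z => log (K z)) 0 := aK.clog (by simp [K0])
  have ne := aK.continuousAt.eventually_ne (K0 ▸ one_ne_zero : K 0 ≠ 0)
  have p := isPow_exp aL' (by simp [K0]) 1 (α⁻¹ : ℝ) (m + 1)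
  rw [ts_congr (g := K) (ne.mono fun z hz => by simp [exp_log hz]), tK] at p
  have e5 : ts (g α) = ts (fun z => exp ((α⁻¹ : ℝ) * 1 * log (K z))) * X := by
    rw [← ts_id, ← ts_mul (by fun_prop) (by fun_prop)]
    refine ts_congr (ne.mono fun z hz => ?_)
    rw [hKf] at hz ⊢
    simp only [g]
    rw [cpow_def_of_ne_zero hz]
    simp [mul_comm]
  have e6 := congrArg (coeff (m + 2)) e5
  have e7 := congrArg (coeff (m + 2)) e1
  rw [coeff_succ_mul_X, kap_eq F0 (hK 1) p, ts, coeff_mk, co] at e6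
  rw [coeff_succ_mul_X, ts, coeff_mk, co] at e7
  rw [e6, e7]
  exact ⟨ofReal_im _, b⟩

end Pool.Agent.Results.MP_0e1b7e_an.Yes
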